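import Pool.Agent.K9h52.EG.Top3
import Pool.Agent.K9h52.EG.Zer

/-!
# The entropy of the Liouville function is attained by cubes of patterns

For a completely multiplicative `f : ℕ → {1, -1}`, for instance the Liouville function, let `P f n` be the number of the sign
patterns of length `n` that occur in `f`, and let `cubeDim f n` be the largest `d` for which there are `d` of the `n` places
and fixed signs at the other `n - d` places such that all `2 ^ d` patterns with these fixed signs occur. Obviously
`2 ^ cubeDim f n ≤ P f n`. We prove that `log₂ (P f n) / n` and `cubeDim f n / n` have the same limit `h`, and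
`h ≤ cubeDim f n / n` for every `n`. So, if a single pattern of length `n` does not occur in the Liouville function, then
`P f N ≤ 2 ^ ((1 - 1 / n + o(1)) N)`; for arbitrary sequences one has only the exponent `log₂ (2 ^ n - 1) / n`. The same is
proved for the patterns that occur with positive upper density.

Consequently all the patterns of all lengths occur in `f` if and only if they all occur in `g`, for all completely
multiplicative `g` with `g p = f p` for all but finitely many primes `p`, and more generally if `f g` has zero entropy:
`f` and `g` have the same `h`, and a single pattern that is missing in `g` would give `h < 1`.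

Proof. Let `W` be a random pattern of length `N`, uniform among those that occur at places in one residue class modulo the
product of the primes up to `G`. The subword of `W` on the multiples of a prime `p ≤ G` consists of patterns of `f` (up to a
sign). If `p` lies in `(g, G]` and `g' ≥ g + n G`, then, conditioned on `(W_y), y < d_n - g'`, the signs at
`d_1 < ... < d_n = d_1 + (n-1) p` have total correlation at most the sum over `x = d_1, ..., d_n` of
`H(W_x | W_y, y < x - g') - H(W_x | W_y, y < x - g)`, which is small on average for one of many scales. Signs with small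
total correlation, such that the support of their law contains no cube of dimension `> D`, have total entropy at most
`D log 2 + small`. Finally take the average over `p` (Turan-Kubilius). For the last part: `P g n` is at most `P f n` times
the number of the patterns of length `n` of `f g`, and this is at most `∏ 2 p n` if `f g` is `1` at all primes but the `p`
in this product.

Parts of the proof (files `Pool/Agent/K9h52/EG`) are due to helpers 17, 24, 30, 44, 45, 51, 62, 63, 71, 74, 81, 82; the
change at finitely many primes was noticed by helper88; the entropy library is `Pool.Agent.H137R2.PFR.Basic`.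
-/

set_option autoImplicit false

namespace Pool.Agent.Results.MP_4fffd4_nt.EntropyIsCubeDimension

open Filter Topology

/-- the Liouville function -/
def lam (n : ℕ) : ℤˣ := (-1) ^ ArithmeticFunction.cardFactors n

/-- `f (p m) = f p * f m` for all primes `p` and all `m ≥ 1`: `f` is completely multiplicative on the positive integers
(`f 1 = 1` because `f (2 * 1) = f 2 * f 1`) -/
def Multiplicative (f : ℕ → ℤˣ) : Prop := ∀ p m : ℕ, p.Prime → 1 ≤ m → f (p * m) = f p * f m

/-- the set of natural numbers `A` has positive upper density -/
def PosUpperDensity (A : Set ℕ) : Prop :=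
  ∃ c : ℝ, 0 < c ∧ ∀ X₀ : ℕ, ∃ X : ℕ, X₀ ≤ X ∧ c * X ≤ ({m : ℕ | m ≤ X ∧ m ∈ A}.ncard : ℝ)

/-- the set of the `m ≥ 1` with `f (m + 1), …, f (m + n) = e` has the property `L`; for `L = Set.Nonempty`: the pattern `e`
occurs in `f` -/
def Occurs (L : Set ℕ → Prop) (f : ℕ → ℤˣ) {n : ℕ} (e : Fin n → ℤˣ) : Prop :=
  L {m : ℕ | 1 ≤ m ∧ ∀ j : Fin n, f (m + j + 1) = e j}

/-- the number of the patterns of length `n` that occur; for `L = Set.Nonempty` it is the block complexity -/
noncomputable def P (L : Set ℕ → Prop) (f : ℕ → ℤˣ) (n : ℕ) : ℕ := Nat.card {e : Fin n → ℤˣ // Occurs L f e}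

/-- all the patterns which agree with `e` outside `T` occur -/
def Cube (L : Set ℕ → Prop) (f : ℕ → ℤˣ) {n : ℕ} (T : Finset (Fin n)) (e : Fin n → ℤˣ) : Prop :=
  ∀ e' : Fin n → ℤˣ, (∀ j, j ∉ T → e' j = e j) → Occurs L f e'

/-- the largest dimension of a cube of patterns of length `n` that occur -/
noncomputable def cubeDim (L : Set ℕ → Prop) (f : ℕ → ℤˣ) (n : ℕ) : ℕ :=
  sSup {d : ℕ | ∃ (T : Finset (Fin n)) (e : Fin n → ℤˣ), Cube L f T e ∧ T.card = d}

/-- **Entropy and cube dimension.** -/
theorem result :
    Multiplicative lam ∧
    ∀ L : Set ℕ → Prop, L = Set.Nonempty ∨ L = PosUpperDensity → ∀ f : ℕ → ℤˣ, Multiplicative f → ∃ h : ℝ,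
      Tendsto (fun n : ℕ => Real.logb 2 (P L f n) / n) atTop (𝓝 h) ∧
      Tendsto (fun n : ℕ => (cubeDim L f n : ℝ) / n) atTop (𝓝 h) ∧
      (∀ n : ℕ, 1 ≤ n → h ≤ (cubeDim L f n : ℝ) / n) ∧
      (∀ n : ℕ, 1 ≤ n → (∃ e : Fin n → ℤˣ, ¬ Occurs L f e) → h ≤ 1 - 1 / n) ∧
      -- finitely many primes, or a factor of zero entropy, do not matter
      (∀ g : ℕ → ℤˣ, Multiplicative g →
        ({p : ℕ | p.Prime ∧ g p ≠ f p}.Finite ∨
          Tendsto (fun n : ℕ => Real.logb 2 (P Set.Nonempty (fun m => f m * g m) n) / n) atTop (𝓝 0)) →
        Tendsto (fun n : ℕ => Real.logb 2 (P L g n) / n) atTop (𝓝 h) ∧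
        ((∀ (n : ℕ) (e : Fin n → ℤˣ), Occurs L f e) ↔ ∀ (n : ℕ) (e : Fin n → ℤˣ), Occurs L g e)) :=
  Pool.Agent.K9h52.EG.Top3.top3 Pool.Agent.K9h52.EG.Zer.zero_entropy

end Pool.Agent.Results.MP_4fffd4_nt.EntropyIsCubeDimension
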