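import Pool.Agent.K9h88.FC.LamHyp
import Pool.Agent.K9h88.FC.Stm

/-!
# Sign patterns of the Liouville function after a change of its sign at a few primes

Q1 asks whether all the `2 ^ n` sign patterns of length `n` occur in the Liouville function. We show
that they do after the sign of the Liouville function has been changed at `n - 3` suitable primes, and
that the sets of primes whose change does not produce a given pattern have Vapnik-Chervonenkis dimension
less than `n - 3`.
-/

set_option autoImplicit false

namespace Pool.Agent.Results.MP_4fffd4_nt.FewChangedPrimes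

open Finset Filter
open Pool.Agent.K9h88.FC

open Classical in
/-- `E` has logarithmic density zero -/
def LogZero (E : Set ℕ) : Prop := Tendsto
  (fun X : ℕ => (∑ n ∈ Icc 1 X, if n ∈ E then (1 : ℝ) / n else 0) / Real.log X) atTop (nhds 0)

open Classical in
/-- `change lam D` is the Liouville function with its sign changed at the primes of `D`: it is
completely multiplicative, `1` at the primes in `D` and `-1` at the other primes.

There is `C` such that for all `n` and each finite set `P` of primes `> n + 3`:

(1) there is a set `E` of logarithmic density zero such that at all scales `x ∉ E` each pattern of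
length `n + 3` begins at `x / (C 2 ^ n ∏ p ^ 2)` or more of the `m ≤ x` in `change lam D`, for all
the sets `D ⊆ P` but at most `∑_{i < n} C(|P|, i)`;

(2) hence, if `|P| ≥ n (L + 2)`: for all the sets `D ⊆ P` with `n` elements, but at most a proportion
`2 ^ (n + 3) / L`, all the patterns of length `n + 3` occur in `change lam D` with positive upper
density; if `|P| ≥ n (2 ^ (n + 3) + 3)`, this happens for some `D ⊆ P` with `n` elements. -/
theorem result :
    (∀ D : Set ℕ, CM (change lam D) ∧
      ∀ p : ℕ, p.Prime → change lam D p = if p ∈ D then 1 else -1) ∧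
    ∃ C : ℕ, ∀ (n : ℕ) (P : Finset ℕ), Above (n + 3) P →
      (∃ E : Set ℕ, LogZero E ∧ ∀ x : ℕ, x ∉ E → ∀ ε : Fin (n + 3) → ℤˣ,
        (badAt lam P ε (C * 2 ^ n * ∏ p ∈ P, p ^ 2) x).card ≤ ∑ i ∈ range n, P.card.choose i) ∧
      (∀ L : ℕ, n * (L + 2) ≤ P.card →
        L * ((P.powersetCard n).filter fun D : Finset ℕ =>
          ¬ Complete (n + 3) (change lam D)).card ≤ 2 ^ (n + 3) * P.card.choose n) ∧
      (n * (2 ^ (n + 3) + 3) ≤ P.card →
        ∃ D ⊆ P, D.card = n ∧ Complete (n + 3) (change lam D)) := by
  obtain ⟨c, H⟩ := hyp_lam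
  refine ⟨lam_change_spec, ⌈32 / c⌉₊, fun n P hP => ?_⟩
  have hp : ∀ p ∈ P, p.Prime := fun p h => (hP p (by exact_mod_cast h)).1
  have hn : ∀ p ∈ P, n + 3 < p := fun p h => (hP p (by exact_mod_cast h)).2
  obtain ⟨h1, X, hX, h2⟩ := few3' H logF_neBot n P hp hn
  have h3 := complete_of hX (full_of n (n + 3) _ P lam X _ h2)
  refine ⟨⟨{x | ∀ ε : Fin (n + 3) → ℤˣ, (P.powerset.filter fun D : Finset ℕ =>
    ¬ x ≤ ⌈32 / c⌉₊ * 2 ^ n * (∏ p ∈ P, p ^ 2) * count (change lam D) ε x).card ≤
      ∑ i ∈ range n, P.card.choose i}ᶜ, ?_, ?_⟩, ?_, ?_⟩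
  · exact h1
  · intro x hx
    have h4 := not_not.1 hx
    intro ε
    exact h4 ε
  · intro L hL
    have h4 := n_changesW n (2 ^ (n + 3)) P
      (fun D : Finset ℕ => ¬ Complete (n + 3) (change lam (D : Set ℕ))) (by convert h3) L hL
    convert h4
  · intro hL
    obtain ⟨D, hD, h4⟩ := n_changesW_exists n (2 ^ (n + 3)) P
      (fun D : Finset ℕ => ¬ Complete (n + 3) (change lam (D : Set ℕ))) (by convert h3) hL
    rw [mem_powersetCard] at hD
    exact ⟨D, hD.1, hD.2, not_not.1 h4⟩

end Pool.Agent.Results.MP_4fffd4_nt.FewChangedPrimes
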