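import Pool.Agent.K9h52.Ind5

/-!
# Infinite sets of places on which the Liouville function takes all sign patterns

Every infinite set `H` of places contains an infinite set `{s 0 < s 1 < …}` of places such that all the
sign patterns on finitely many of the places `s k` occur in the Liouville function, each one with about
the expected frequency along one sequence of scales. Moreover three further places can be prescribed.
-/

set_option autoImplicit false

namespace Pool.Agent.Results.MP_4fffd4_nt.InfiniteIndependence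

open Finset

/-- the Liouville function -/
def lam (n : ℕ) : ℤ := (-1) ^ ArithmeticFunction.cardFactors n

open Classical in
/-- the number of `m` with `1 ≤ m ≤ X` such that `lam (m + h) = ε h` for all the places `h` in `B` and
for all the places `h = s k` with `k ∈ F` -/
noncomputable def occ (B : Finset ℕ) (s : ℕ → ℕ) (F : Finset ℕ) (ε : ℕ → ℤ) (X : ℕ) : ℕ :=
  ((Icc 1 X).filter fun m =>
    (∀ b ∈ B, lam (m + b) = ε b) ∧ ∀ k ∈ F, lam (m + s k) = ε (s k)).card

/-- There is an absolute constant `c > 0` and, for each `δ > 0`, a constant `C` such that: for every set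
`B` of at most three places and every infinite set `H` of places there are `s 0 < s 1 < …` in `H`, not
in `B`, with at most `C (k + 1) ^ 4 4 ^ k` elements of `H` below `s k`, and scales `X 0 < X 1 < …` such
that for each finite `F` all sign patterns `ε` on the `|B| + |F|` places `B ∪ {s k : k ∈ F}` occur at
least `c X / 2 ^ (|B| + |F|)` times up to `X = X i`, for all large `i`; and if `|B| ≤ 2` the number
of occurrences is `X / 2 ^ (|B| + |F|)` up to a relative error `δ`. -/
theorem result : ∃ c : ℝ, 0 < c ∧ ∀ δ : ℝ, 0 < δ → ∃ C : ℝ, ∀ (B : Finset ℕ) (H : Set ℕ), B.card ≤ 3 →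
    H.Infinite → ∃ s X : ℕ → ℕ, StrictMono s ∧ StrictMono X ∧
    (∀ k, s k ∈ H ∧ s k ∉ B ∧ ((H ∩ Set.Iio (s k)).ncard : ℝ) ≤ C * ((k : ℝ) + 1) ^ 4 * 4 ^ k) ∧
    ∀ F : Finset ℕ, ∃ i₀ : ℕ, ∀ i, i₀ ≤ i → ∀ ε : ℕ → ℤ, (∀ h, ε h = 1 ∨ ε h = -1) →
      c * (X i / 2 ^ (B.card + F.card)) ≤ (occ B s F ε (X i) : ℝ) ∧
      (B.card ≤ 2 → |(occ B s F ε (X i) : ℝ) - X i / 2 ^ (B.card + F.card)| ≤
        δ * (X i / 2 ^ (B.card + F.card))) := by
  classical
  obtain ⟨c, hc, h⟩ := Pool.Agent.K9h52.Ind.main'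
  refine ⟨c, hc, fun δ hδ => ?_⟩
  obtain ⟨C, hC⟩ := h δ hδ
  refine ⟨C, fun B H hB hH => ?_⟩
  obtain ⟨s, X, h1, h2, h3, h4⟩ := hC B H hB hH
  refine ⟨s, X, h1, h2, h3, fun F => ?_⟩
  obtain ⟨i₀, hi₀⟩ := h4 F
  refine ⟨i₀, fun i hi ε hε => ?_⟩
  have h5 := hi₀ i hi (fun h => (ε h : ℝ)) (fun h => by
    rcases hε h with h6 | h6
    · left; rw [h6]; norm_num
    · right; rw [h6]; norm_num)
  have h6 : ∀ m h : ℕ, Pool.Agent.R509.TT.l (m + h) = (ε h : ℝ) ↔ lam (m + h) = ε h := by
    intro m h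
    have h7 : Pool.Agent.R509.TT.l (m + h) = ((lam (m + h) : ℤ) : ℝ) := by
      unfold lam Pool.Agent.R509.TT.l
      push_cast
      rfl
    rw [h7]
    exact_mod_cast Iff.rfl
  have h7 : (Icc 1 (X i)).filter (fun m => Pool.Agent.K9h52.Ind.Pat B s F (fun h => (ε h : ℝ)) m) =
      (Icc 1 (X i)).filter (fun m => (∀ b ∈ B, lam (m + b) = ε b) ∧ ∀ k ∈ F, lam (m + s k) = ε (s k)) := by
    refine filter_congr fun m _ => ?_
    unfold Pool.Agent.K9h52.Ind.Pat
    constructor
    · rintro ⟨h8, h9⟩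
      exact ⟨fun b hb => (h6 m b).1 (h8 b hb), fun k hk => (h6 m (s k)).1 (h9 k hk)⟩
    · rintro ⟨h8, h9⟩
      exact ⟨fun b hb => (h6 m b).2 (h8 b hb), fun k hk => (h6 m (s k)).2 (h9 k hk)⟩
  rw [h7] at h5
  exact h5

end Pool.Agent.Results.MP_4fffd4_nt.InfiniteIndependence
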