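import Pool.Agent.K9h52.Avg2

/-!
# Sign patterns of the Liouville function on almost all small sets of places

For one limiting frequency measure of the sign patterns of the Liouville function: in each set of `n`
places the frequencies of the `2 ^ k` sign patterns on the `k`-element subsets differ in mean square
from `2 ^ (-k)` by a factor `1 + O (2 ^ (k / 2) / √(n - k + 1))` at most.
-/

set_option autoImplicit false

namespace Pool.Agent.Results.MP_4fffd4_nt.MeanSquareFrequencies

open Finset Filter Topology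

/-- the Liouville function -/
def lam (n : ℕ) : ℤ := (-1) ^ ArithmeticFunction.cardFactors n

/-- at `m` the sign pattern `P` occurs on the places `K`: among the places `h ∈ K`,
`lam (m + h) = -1` exactly for `h ∈ P` -/
def Occurs (K P : Finset ℕ) (m : ℕ) : Prop := ∀ h ∈ K, (lam (m + h) = -1 ↔ h ∈ P)

open Classical in
/-- the number of occurrences of the sign pattern `P` on the places `K` up to `X` -/
noncomputable def occ (K P : Finset ℕ) (X : ℕ) : ℕ := ((Icc 1 X).filter fun m => Occurs K P m).card

open Classical in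
/-- the number of the `2 ^ |K|` sign patterns on the places `K` which occur at no `m ≥ 1` -/
noncomputable def missing (K : Finset ℕ) : ℕ :=
  (K.powerset.filter fun P => ∀ m : ℕ, 1 ≤ m → ¬ Occurs K P m).card

/-- There are scales `X 0 < X 1 < …` along which all the sign patterns `P` on all finite sets `K` of
places have a frequency `d K P`, and for every finite set `H` of places and every `k ≤ |H|`:
`(|H| - k + 1) ∑ (2 ^ k d K P - 1) ^ 2 ≤ choose |H| k * 2 ^ k * (2 ^ k - 1)`, where the sum is over all
the `k`-element subsets `K` of `H` and all the `2 ^ k` sign patterns `P` on `K`. In particular the number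
of missing sign patterns on `K`, summed over these `K`, satisfies the same bound. -/
theorem result : (∃ (X : ℕ → ℕ) (d : Finset ℕ → Finset ℕ → ℝ), StrictMono X ∧
    (∀ K P : Finset ℕ, Tendsto (fun i => (occ K P (X i) : ℝ) / X i) atTop (𝓝 (d K P))) ∧
    ∀ (H : Finset ℕ) (k : ℕ), k ≤ H.card →
      ((H.card : ℝ) - k + 1) * ∑ K ∈ H.powersetCard k, ∑ P ∈ K.powerset, (2 ^ k * d K P - 1) ^ 2 ≤
        (H.card.choose k : ℝ) * (2 ^ k * (2 ^ k - 1))) ∧
    ∀ (H : Finset ℕ) (k : ℕ), k ≤ H.card →
      ((H.card : ℝ) - k + 1) * ∑ K ∈ H.powersetCard k, (missing K : ℝ) ≤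
        (H.card.choose k : ℝ) * (2 ^ k * (2 ^ k - 1)) := by
  classical
  obtain ⟨X, d, h1, h2, h3⟩ := Pool.Agent.K9h52.Avg.main
  have h6 : ∀ m h : ℕ, Pool.Agent.R509.TT.l (m + h) = -1 ↔ lam (m + h) = -1 := by
    intro m h
    have h7 : Pool.Agent.R509.TT.l (m + h) = ((lam (m + h) : ℤ) : ℝ) := by
      unfold lam Pool.Agent.R509.TT.l
      push_cast
      rfl
    rw [h7]
    exact_mod_cast Iff.rfl
  have h2' : ∀ K P : Finset ℕ, Tendsto (fun i => (occ K P (X i) : ℝ) / X i) atTop (𝓝 (d K P)) := by
    intro K P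
    have h8 := h2 K P
    refine Tendsto.congr (fun i => ?_) h8
    unfold occ
    congr 3
    refine filter_congr fun m _ => ?_
    unfold Occurs
    exact forall₂_congr fun h _ => by rw [h6]
  refine ⟨⟨X, d, h1, h2', h3⟩, fun H k hk => ?_⟩
  refine le_trans ?_ (h3 H k hk)
  apply mul_le_mul_of_nonneg_left _ (by
    have : (k : ℝ) ≤ H.card := by exact_mod_cast hk
    linarith)
  refine sum_le_sum fun K _ => ?_
  have h4 : ∀ P ∈ K.powerset.filter (fun P => ∀ m : ℕ, 1 ≤ m → ¬ Occurs K P m),
      (2 ^ k * d K P - 1) ^ 2 = 1 := by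
    intro P hP
    rw [mem_filter] at hP
    have h5 : d K P = 0 := by
      refine tendsto_nhds_unique (h2' K P) ?_
      refine tendsto_const_nhds.congr fun i => ?_
      have h7 : occ K P (X i) = 0 := by
        unfold occ
        rw [card_eq_zero, filter_eq_empty_iff]
        intro m hm
        exact hP.2 m (mem_Icc.1 hm).1
      rw [h7]
      simp
    rw [h5]
    ring
  calc (missing K : ℝ) = ∑ P ∈ K.powerset.filter (fun P => ∀ m : ℕ, 1 ≤ m → ¬ Occurs K P m), (1 : ℝ) := by
        unfold missing
        simp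
    _ = ∑ P ∈ K.powerset.filter (fun P => ∀ m : ℕ, 1 ≤ m → ¬ Occurs K P m), (2 ^ k * d K P - 1) ^ 2 :=
        sum_congr rfl fun P hP => (h4 P hP).symm
    _ ≤ ∑ P ∈ K.powerset, (2 ^ k * d K P - 1) ^ 2 :=
        sum_le_sum_of_subset_of_nonneg (filter_subset _ _) fun _ _ _ => sq_nonneg _

end Pool.Agent.Results.MP_4fffd4_nt.MeanSquareFrequencies
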